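import Pool.Agent.H89.Dev.Main
import Pool.Agent.H89.L.W5h38_TV_Few

/-!
# Schemes with an action of a torus of complexity at most `n`
-/

set_option autoImplicit false

open CategoryTheory AlgebraicGeometry Pool.Agent.Y116.UV Pool.Agent.Z125.UN Pool.Agent.W5h38.TV
  Pool.Agent.W5h68.SP

namespace Pool.Agent.H89.Dev

variable {k : Type} [Field k] [PerfectField k] {P : Sch k → Prop} (hP : Bnd True P)

include hP

/-- From the schemes of the class to the torus schemes. -/
theorem built_of_class {Q : Sch k → Prop} (hQ : IsClass Q) {n : ℕ} (hM : ModelsIn Q n)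
    (hX : ForClass Q P n) (X : Sch k) (h : Built n X) : P X :=
  (dim_iff hP n).mp (fun X hX' _ hn => devissage hP hQ hM hX X hX' hn) X h

/-- From the torus schemes to the schemes of the class. -/
theorem class_of_built {Q : Sch k → Prop} (hQ : IsClass Q) {n : ℕ}
    (h : ∀ X : Sch k, Built n X → P X) : ForClass Q P n := fun X hX hn =>
  (dim_iff hP n).mpr h X (hQ.ft hX) (hQ.smooth X hX) hn

theorem class_iff_built {Q : Sch k → Prop} (hQ : IsClass Q) {n : ℕ} (hM : ModelsIn Q n) :
    ForClass Q P n ↔ ∀ X : Sch k, Built n X → P X :=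
  ⟨fun h => built_of_class hP hQ hM h, class_of_built hP hQ⟩

theorem cones_of_class {Q : Sch k → Prop} (hQ : IsClass Q) {n : ℕ} (hM : ModelsIn Q n)
    (hX : ForClass Q P n) : Cones n P := fun m N r t g α b hg hd hb =>
  built_of_class hP hQ hM hX _ (cones_built n m N r t g α b hg hd hb)

theorem sparse_of_class {Q : Sch k → Prop} (hQ : IsClass Q) {n : ℕ} (hM : ModelsIn Q n)
    (hX : ForClass Q P n) : Sparse n P := fun N c t f S b hf hS hc hb =>
  built_of_class hP hQ hM hX _ (sparse_built n N c t f S b hf hS hc hb)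

end Pool.Agent.H89.Dev
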