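import Pool.Agent.H89.L.Y116_UV_Defs
import Pool.Agent.H89.L.W5h38_TV_Defs
import Pool.Agent.H89.L.W5h68_SP_Defs

/-!
# Classes of smooth proper varieties with birational models, and trilinear forms: definitions
-/

set_option autoImplicit false

open CategoryTheory AlgebraicGeometry Pool.Agent.Y116.UV

namespace Pool.Agent.H89.Dev

variable {k : Type} [Field k]

/-- Some non-empty open subschemes of `Y` and `Y'` are isomorphic. -/
def Birational (Y Y' : Sch k) : Prop :=
  ∃ (V : Sch k) (i : V ⟶ Y) (j : V ⟶ Y'), Nonempty V.left ∧ IsOpenImmersion i.left ∧
    IsOpenImmersion j.left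

/-- `Q` is a class of smooth proper irreducible schemes over `k`, for example the class of all smooth
projective varieties over `k` (they need not be geometrically irreducible). -/
structure IsClass (Q : Sch k → Prop) : Prop where
  smooth : ∀ X, Q X → Smooth X.hom
  proper : ∀ X, Q X → IsProper X.hom
  irreducible : ∀ X, Q X → IrreducibleSpace X.left

/-- Every integral affine scheme of finite type over `k` of dimension `d ≤ n` is birational to a scheme
of the class `Q` of dimension `d`. (For the class of the smooth projective varieties over a field of
characteristic zero this is the theorem of Hironaka.) -/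
def ModelsIn (Q : Sch k → Prop) (n : ℕ) : Prop :=
  ∀ (A : Type) [CommRing A] [IsDomain A] [Algebra k A] [Algebra.FiniteType k A] (d : ℕ), d ≤ n →
    ringKrullDim A = d →
      ∃ X : Sch k, Q X ∧ Birational (aff k A) X ∧ topologicalKrullDim X.left = d

/-- `P` is true for all schemes of the class `Q` of dimension at most `n`. -/
def ForClass (Q P : Sch k → Prop) (n : ℕ) : Prop :=
  ∀ X : Sch k, Q X → topologicalKrullDim X.left ≤ n → P X

/-- A trilinear form over `k` in three blocks of `a`, `b`, `d` variables, given by its coefficients. -/
structure Form (k : Type) [Field k] where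
  /-- the number of variables in the first block -/
  a : ℕ
  /-- the number of variables in the second block -/
  b : ℕ
  /-- the number of variables in the third block -/
  d : ℕ
  /-- the coefficients -/
  T : Fin a → Fin b → Fin d → k

/-- The hypersurface `T(x, y, z) = 1`. -/
noncomputable def Form.hyp (F : Form k) : Sch k := hypS F.T

/-- The form has a block of at most `m` variables. -/
def Form.Small (m : ℕ) (F : Form k) : Prop := F.a ≤ m ∨ F.b ≤ m ∨ F.d ≤ m

/-- `P` is true for the hypersurfaces `T(x, y, z) = 1` of all trilinear forms `T` over `k` which have a
block of at most `m` variables. -/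
def ForForms (P : Sch k → Prop) (m : ℕ) : Prop := ∀ F : Form k, F.Small m → P F.hyp

end Pool.Agent.H89.Dev
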